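import Pool.Agent.Y577.UC.Forced

set_option autoImplicit false

/-!
# Adding more than `|K|` Cohen reals forces the principle on graphs for `K`: the proof
-/

namespace Pool.Agent.Y577.UC.Forced

open Set Cardinal Pool.Agent.Helper669.Forcing Pool.Agent.H458R4.Cohen Pool.Agent.Y577.AD.Kunen

variable {K Λ : Type}

/-- the name of the generic graph -/
def GG (e : Sym2 K → Λ) (u v : K) : Set (Fn Λ) := {q | ((e s(u, v), 0), true) ∈ q.g}

theorem forr_of {P : Type} [Preorder P] {A B : Set P} {q : P}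
    (h : ∀ q' ≤ q, q' ∈ fnot A → q' ∈ fnot B → False) : q ∈ forr A B :=
  fun q' hq' h' => h q' hq' h'.1 h'.2

theorem down_forr {P : Type} [Preorder P] (A B : Set P) : Down (forr A B) := down_fnot _

theorem exists_below {n : ℕ} (N : Fin n → Set (Fn Λ)) (hN : ∀ i, Down (N i)) (r : Fn Λ)
    (h : ∀ i, r ∈ meets (N i)) : ∃ r' ≤ r, ∀ i, r' ∈ N i := by
  induction n generalizing r with
  | zero => exact ⟨r, le_rfl, fun i => i.elim0⟩
  | succ n ih =>
    obtain ⟨r', hr', h'⟩ := ih (fun i => N i.castSucc) (fun i => hN _) r fun i => h _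
    obtain ⟨r'', hr'', h''⟩ := exists_of_meets (hN (Fin.last n)) (down_meets _ _ (h (Fin.last n)) r' hr')
    refine ⟨r'', hr''.trans hr', fun i => ?_⟩
    refine Fin.lastCases ?_ (fun i => ?_) i
    · exact h''
    · exact hN _ _ (h' i) _ hr''

theorem forcedPrinciple (hK : ℵ₀ < #K) (hΛ : #K < #Λ) (p₀ : Fn Λ) :
    p₀ ∈ ForcedPrinciple (Fn Λ) K := by
  classical
  have hKinf : Infinite K := Cardinal.infinite_iff.2 hK.le
  have hΛinf : Infinite Λ := Cardinal.infinite_iff.2 (hK.le.trans hΛ.le)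
  intro R
  obtain ⟨S, hS1, hS2⟩ := supp_family hK.le R
  -- new coordinates
  obtain ⟨e, he, heS⟩ : ∃ e : Sym2 K → Λ, Function.Injective e ∧ ∀ z, e z ∉ S := by
    have h1 : #(Sᶜ : Set Λ) = #Λ := Cardinal.mk_compl_of_infinite S (hS1.trans_lt hΛ)
    have h2 : #(Sym2 K) ≤ #(Sᶜ : Set Λ) := by
      rw [h1]
      refine (Cardinal.mk_quot_le (α := K × K)).trans ?_
      rw [Cardinal.mk_prod]
      simp only [Cardinal.lift_id]
      rw [Cardinal.mul_eq_self hK.le]
      exact hΛ.le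
    obtain ⟨g⟩ : Nonempty (Sym2 K ↪ (Sᶜ : Set Λ)) := Cardinal.le_def _ _ |>.1 h2
    exact ⟨fun z => (g z).1, fun z z' h => g.injective (Subtype.ext h), fun z => (g z).2⟩
  refine mem_fex_of_mem (GG e) ?_ ⟨fun u v => ?_, fun φ => ?_⟩
  · exact down_fand (down_fall fun _ => down_fall fun _ => down_fimp _ _)
      (down_fall fun _ => down_fimp _ _)
  · refine mem_fimp.2 fun q _ h => ⟨q, le_rfl, ?_⟩
    have : GG e v u = GG e u v := by
      simp only [GG]
      rw [Sym2.eq_swap]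
    rw [this]
    exact h
  refine mem_fimp.2 fun q _ hφ => ⟨q, le_rfl, forr_of fun q' hq' hA hB => ?_⟩
  have hφ' : q' ∈ IsFun φ := down_IsFun _ _ hφ _ hq'
  choose p hp1 v hp2 using fun β => IsFun.total hφ' β
  obtain ⟨Γ, ρ, hΓ, hρ, hcomp, hfree⟩ := thin hK he p
  -- the claim
  have claim : ∀ (n : ℕ) (l : Fin n → K), Function.Injective l → (∀ i, l i ∈ Γ) →
      ∀ r, r ≤ q' → (∀ i, r ≤ p (l i)) → r ∈ meets (R n fun i => v (l i)) := by
    intro n l hl hlΓ r hrq hr
    by_contra hcon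
    obtain ⟨r1, hr1, hr1'⟩ := exists_not_of_notMem_meets hcon
    rcases Nat.eq_zero_or_pos n with hn | hn
    · subst hn
      apply hA r1 (hr1.trans hrq)
      refine mem_fex.2 fun s hs => ⟨s, le_rfl, 0, mem_fex.2 fun s' hs' => ⟨s', le_rfl, l, hl,
        fun i => i.elim0, mem_fex.2 fun s'' hs'' => ⟨s'', le_rfl, fun i => v (l i), fun i => i.elim0, ?_⟩⟩⟩
      exact down_fnot _ _ hr1' _ (hs''.trans (hs'.trans hs))
    have hrS := restr_fnot (hS2 n _) hr1'
    obtain ⟨r2, h1, h2, h3⟩ := extend e l (fun i => p (l i)) (restr S r1) true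
      (by
        intro i a c c' hc hc'
        exact r1.fn _ _ _ (hr1 (hr i hc)) (mem_restr.1 hc').1)
      (by
        intro i j a c c' hc hc'
        exact r.fn _ _ _ (hr i hc) (hr j hc'))
      (by
        intro i j _ c h
        exact heS _ (mem_restr.1 h).2)
      (by
        intro i j hij k c
        exact hfree _ (hlΓ i) _ (hlΓ j) (fun h => hij (hl h)) _ (hlΓ k) c)
    have hr2q : r2 ≤ q' := (h2 ⟨0, hn⟩).trans (hp1 _)
    apply hA r2 hr2q
    refine mem_fex.2 fun s hs => ⟨s, le_rfl, n, mem_fex.2 fun s' hs' => ⟨s', le_rfl, l, hl,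
      fun i j hij => ?_, mem_fex.2 fun s'' hs'' => ⟨s'', le_rfl, fun i => v (l i), fun i => ?_, ?_⟩⟩⟩
    · exact meets_of_mem (hs' (hs (h3 i j hij)) : s' ∈ GG e (l i) (l j))
    · exact down_meets _ _ (hp2 (l i)) _ (hs''.trans (hs'.trans (hs.trans (h2 i))))
    · exact down_fnot _ _ hrS _ (hs''.trans (hs'.trans (hs.trans h1)))
  -- the root is below `q'`
  obtain ⟨β₁, hβ₁⟩ := hΓ.nonempty
  obtain ⟨β₂, hβ₂, hne⟩ := hΓ.exists_notMem_finset {β₁}
  have hne' : β₁ ≠ β₂ := fun h => hne (by simp [h])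
  have hρq : ρ ≤ q' := by
    intro y hy
    exact (hcomp β₁ hβ₁ β₂ hβ₂ hne' y.1 y.2 y.2 (hp1 β₁ hy) (hp1 β₂ hy)).2
  apply hB ρ hρq
  refine mem_fex_of_mem (fun β => {s : Fn Λ | β ∈ Γ ∧ s ≤ p β}) ?_ ⟨fun n => ?_, fun n l hl m => ?_⟩
  · exact down_fand (down_fall fun _ => down_fex _) (down_fall fun _ => down_fall fun _ =>
      down_fall fun _ => down_fall fun _ => down_fimp _ _)
  · refine mem_fex.2 fun r hr => ?_
    -- finitely many bad vertices
    have hbad : ({β ∈ Γ | ¬ Compat (p β) r} ∪ verts e r).Finite := by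
      refine Set.Finite.union ?_ (verts_finite he r)
      have hch : ∀ β : {β // β ∈ Γ ∧ ¬ Compat (p β) r}, ∃ y ∈ r.g, ∃ c, (y.1, c) ∈ (p β.1).g ∧
          c ≠ y.2 := by
        rintro ⟨β, hβ, hc⟩
        rw [compat_iff] at hc
        push Not at hc
        obtain ⟨a, c, c', h1, h2, h3⟩ := hc
        exact ⟨(a, c'), h2, c, h1, h3⟩
      choose y hy c hc hcy using hch
      have hinj : Function.Injective y := by
        intro β γ h
        by_contra hne
        have h1 := hc γ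
        rw [← h] at h1
        obtain ⟨_, h3⟩ := hcomp β.1 β.2.1 γ.1 γ.2.1 (fun h => hne (Subtype.ext h)) _ _ _ (hc β) h1
        exact hcy β (r.fn _ _ _ (hr h3) (hy β))
      have hf : Finite {β // β ∈ Γ ∧ ¬ Compat (p β) r} :=
        Finite.of_injective (fun β => (⟨y β, hy β⟩ : r.g)) fun β γ h => hinj (congrArg Subtype.val h)
      exact Set.finite_coe_iff.1 hf
    have hinf : (Γ \ ({β ∈ Γ | ¬ Compat (p β) r} ∪ verts e r)).Infinite := hΓ.sdiff hbad
    have hinf' : Infinite ↥(Γ \ ({β ∈ Γ | ¬ Compat (p β) r} ∪ verts e r)) := hinf.to_subtype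
    let f := (Infinite.natEmbedding ↥(Γ \ ({β ∈ Γ | ¬ Compat (p β) r} ∪ verts e r)))
    let l : Fin n → K := fun i => (f i.1).1
    have hl : Function.Injective l := by
      intro i j h
      exact Fin.ext (f.injective (Subtype.ext h))
    have hlΓ : ∀ i, l i ∈ Γ := fun i => (f i.1).2.1
    have hlc : ∀ i, Compat (p (l i)) r := by
      intro i
      by_contra h
      exact (f i.1).2.2 (Or.inl ⟨hlΓ i, h⟩)
    have hlv : ∀ i, l i ∉ verts e r := fun i h => (f i.1).2.2 (Or.inr h)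
    obtain ⟨r', h1, h2, h3⟩ := extend e l (fun i => p (l i)) r false
      (fun i a c c' hc hc' => (compat_iff.1 (hlc i)) a c c' hc hc')
      (by
        intro i j a c c' hc hc'
        by_cases hij : i = j
        · subst hij
          exact (p (l i)).fn _ _ _ hc hc'
        · exact (hcomp _ (hlΓ i) _ (hlΓ j) (fun h => hij (hl h)) a c c' hc hc').1)
      (by
        intro i j _ c h
        exact hlv i ⟨l j, 0, c, h⟩)
      (by
        intro i j hij k c
        exact hfree _ (hlΓ i) _ (hlΓ j) (fun h => hij (hl h)) _ (hlΓ k) c)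
    refine ⟨r', h1, l, hl, fun i => meets_of_mem ⟨hlΓ i, h2 i⟩, fun i j hij s hs hsG => ?_⟩
    obtain ⟨t, ht, u, hu, htu⟩ := hsG s le_rfl
    have h4 : ((e s(l i, l j), 0), true) ∈ t.g := htu hu
    have h5 : ((e s(l i, l j), 0), false) ∈ t.g := ht (hs (h3 i j hij))
    exact absurd (t.fn _ _ _ h4 h5) (by simp)
  · refine mem_fimp.2 fun r hr h => ?_
    obtain ⟨r', hr', h'⟩ := exists_below (fun i => {s : Fn Λ | l i ∈ Γ ∧ s ≤ p (l i)})
      (fun i s hs t ht => ⟨hs.1, ht.trans hs.2⟩) r h.1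
    refine ⟨r', hr', ?_⟩
    have h1 := claim n l hl (fun i => (h' i).1) r' (hr'.trans (hr.trans hρq)) fun i => (h' i).2
    have h2 : (fun i => v (l i)) = m := by
      funext i
      have hf : r' ∈ IsFun φ := down_IsFun _ _ hφ' _ (hr'.trans (hr.trans hρq))
      exact IsFun.unique hf (down_meets _ _ (hp2 (l i)) _ (h' i).2) (down_meets _ _ (h.2 i) _ hr')
    rw [h2] at h1
    exact h1

end Pool.Agent.Y577.UC.Forced
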