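import Pool.Agent.Y577.AD.Kunen
import Pool.Agent.TH777.Y.Delta

set_option autoImplicit false

/-!
# Adding more than `|K|` Cohen reals forces the principle on graphs for `K`
-/

namespace Pool.Agent.Y577.UC.Forced

open Set Cardinal Pool.Agent.Helper669.Forcing Pool.Agent.H458R4.Cohen Pool.Agent.Y577.AD.Kunen

section defs

variable {P : Type} [Preorder P]

/-- `φ or ψ` is `not (not φ and not ψ)`. -/
def forr (φ ψ : Set P) : Set P := fnot (fand (fnot φ) (fnot ψ))

/-- Some finite complete subgraph of the named graph `G` on `K`, enumerated by the sequence `l`, is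
mapped by the named function `φ` to a sequence which is not in `R`. -/
def BadClique {K : Type} (R : (n : ℕ) → (Fin n → K) → Set P) (G : K → K → Set P)
    (φ : K → K → Set P) : Set P :=
  fex fun n : ℕ => fex fun l : Fin n → K => fand (fground (Function.Injective l))
    (fand (fall fun i => fall fun j => fall fun _ : i ≠ j => meets (G (l i) (l j)))
      (fex fun m : Fin n → K => fand (fall fun i => meets (φ (l i) (m i)))
        (fnot (meets (R n m)))))

/-- Some subset `I` of `K` contains independent sets of the named graph `G` of all finite sizes, and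
all finite sequences of different elements of `I` are mapped by `φ` to members of `R`. -/
def GoodSet {K : Type} (R : (n : ℕ) → (Fin n → K) → Set P) (G : K → K → Set P)
    (φ : K → K → Set P) : Set P :=
  fex fun I : K → Set P => fand
    (fall fun n : ℕ => fex fun l : Fin n → K => fand (fground (Function.Injective l))
      (fand (fall fun i => meets (I (l i)))
        (fall fun i => fall fun j => fall fun _ : i ≠ j => fnot (meets (G (l i) (l j))))))
    (fall fun n : ℕ => fall fun l : Fin n → K => fall fun _ : Function.Injective l =>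
      fall fun m : Fin n → K =>
        fimp (fand (fall fun i => meets (I (l i))) (fall fun i => meets (φ (l i) (m i))))
          (meets (R n m)))

/-- The principle on graphs for `K`, in the extension. -/
def ForcedPrinciple (P : Type) [Preorder P] (K : Type) : Set P :=
  fall fun R : (n : ℕ) → (Fin n → K) → Set P => fex fun G : K → K → Set P =>
    fand (fall fun u => fall fun v => fimp (meets (G u v)) (meets (G v u)))
      (fall fun φ : K → K → Set P => fimp (IsFun φ) (forr (BadClique R G φ) (GoodSet R G φ)))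

end defs

variable {K Λ : Type}

/-! ### Supports -/

theorem supp_one (N : Set (Fn Λ)) : ∃ S : Set Λ, S.Countable ∧
    ∀ q, q ∈ meets N → restr S q ∈ meets N := by
  obtain ⟨S, h1, h2⟩ := exists_supp (fun _ : ℕ => N)
  exact ⟨S, h1, h2 0⟩

theorem supp_mono {N : Set (Fn Λ)} {S S' : Set Λ} (h : S ⊆ S')
    (hS : ∀ q, q ∈ meets N → restr S q ∈ meets N) : ∀ q, q ∈ meets N → restr S' q ∈ meets N := by
  intro q hq
  refine down_meets _ _ (hS q hq) _ ?_
  intro y hy
  exact mem_restr.2 ⟨(mem_restr.1 hy).1, h (mem_restr.1 hy).2⟩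

theorem restr_fnot {N : Set (Fn Λ)} {S : Set Λ} (hS : ∀ q, q ∈ meets N → restr S q ∈ meets N)
    {r : Fn Λ} (hr : r ∈ fnot (meets N)) : restr S r ∈ fnot (meets N) := by
  intro t ht htN
  have h1 := hS t htN
  have hc : Compat (restr S t) r := by
    rw [compat_iff]
    intro a b b' hb hb'
    have h2 := mem_restr.1 hb
    have h3 : (a, b') ∈ t.g := ht (mem_restr.2 ⟨hb', h2.2⟩)
    exact t.fn _ _ _ h2.1 h3
  obtain ⟨s, hs1, hs2⟩ := hc
  exact hr s hs2 (down_meets _ _ h1 s hs1)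

theorem supp_family (hK : ℵ₀ ≤ #K) (R : (n : ℕ) → (Fin n → K) → Set (Fn Λ)) :
    ∃ S : Set Λ, #S ≤ #K ∧ ∀ n m q, q ∈ meets (R n m) → restr S q ∈ meets (R n m) := by
  have hinf : Infinite K := Cardinal.infinite_iff.2 hK
  choose S hS1 hS2 using fun x : (Σ n : ℕ, (Fin n → K)) => supp_one (R x.1 x.2)
  refine ⟨⋃ x, S x, ?_, fun n m => supp_mono (Set.subset_iUnion S ⟨n, m⟩) (hS2 ⟨n, m⟩)⟩
  have hI : #(Σ n : ℕ, (Fin n → K)) ≤ #K := by
    rw [Cardinal.mk_sigma]
    refine (Cardinal.sum_le_sum _ (fun _ : ℕ => #K) fun n => ?_).trans ?_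
    · rw [Cardinal.mk_pi, Cardinal.prod_const', Cardinal.mk_fin]
      exact Cardinal.power_nat_le hK
    · rw [Cardinal.sum_const', Cardinal.mk_nat, Cardinal.aleph0_mul_eq hK]
  refine Cardinal.mk_iUnion_le_sum_mk.trans ?_
  refine (Cardinal.sum_le_sum _ (fun _ => ℵ₀) fun x => ?_).trans ?_
  · exact Cardinal.le_aleph0_iff_set_countable.2 (hS1 x)
  · rw [Cardinal.sum_const']
    exact (mul_le_mul' hI hK).trans (Cardinal.mul_eq_self hK).le

/-! ### Extension of conditions -/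

theorem extend (e : Sym2 K → Λ) {n : ℕ} (l : Fin n → K) (p : Fin n → Fn Λ) (r : Fn Λ) (b : Bool)
    (h1 : ∀ i a c c', (a, c) ∈ (p i).g → (a, c') ∈ r.g → c = c')
    (h2 : ∀ i j a c c', (a, c) ∈ (p i).g → (a, c') ∈ (p j).g → c = c')
    (h3 : ∀ i j, i ≠ j → ∀ c, ((e s(l i, l j), 0), c) ∉ r.g)
    (h4 : ∀ i j, i ≠ j → ∀ k c, ((e s(l i, l j), 0), c) ∉ (p k).g) :
    ∃ r', r' ≤ r ∧ (∀ i, r' ≤ p i) ∧ ∀ i j, i ≠ j → ((e s(l i, l j), 0), b) ∈ r'.g := by
  classical
  let E : Finset ((Λ × ℕ) × Bool) := ((Finset.univ : Finset (Fin n × Fin n)).filter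
    fun x => x.1 ≠ x.2).image fun x => ((e s(l x.1, l x.2), 0), b)
  let D : Finset ((Λ × ℕ) × Bool) := (Finset.univ : Finset (Fin n)).biUnion fun i => (p i).g
  have hE : ∀ a c, (a, c) ∈ E → c = b ∧ ∃ i j, i ≠ j ∧ a = (e s(l i, l j), 0) := by
    intro a c h
    obtain ⟨⟨i, j⟩, hij, h'⟩ := Finset.mem_image.1 h
    simp only [Prod.mk.injEq] at h'
    exact ⟨h'.2.symm, i, j, (Finset.mem_filter.1 hij).2, h'.1.symm⟩
  have hD : ∀ y, y ∈ D → ∃ i, y ∈ (p i).g := by
    intro y h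
    obtain ⟨i, _, hi⟩ := Finset.mem_biUnion.1 h
    exact ⟨i, hi⟩
  refine ⟨⟨r.g ∪ (D ∪ E), ?_⟩, Finset.subset_union_left, ?_, ?_⟩
  · intro a c c' h h'
    rcases Finset.mem_union.1 h with h | h
    · rcases Finset.mem_union.1 h' with h' | h'
      · exact r.fn _ _ _ h h'
      · rcases Finset.mem_union.1 h' with h' | h'
        · obtain ⟨i, hi⟩ := hD _ h'
          exact (h1 i a c' c hi h).symm
        · obtain ⟨_, i, j, hij, rfl⟩ := hE _ _ h'
          exact absurd h (h3 i j hij c)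
    · rcases Finset.mem_union.1 h with h | h
      · obtain ⟨i, hi⟩ := hD _ h
        rcases Finset.mem_union.1 h' with h' | h'
        · exact h1 i a c c' hi h'
        · rcases Finset.mem_union.1 h' with h' | h'
          · obtain ⟨j, hj⟩ := hD _ h'
            exact h2 i j a c c' hi hj
          · obtain ⟨_, i', j', hij, rfl⟩ := hE _ _ h'
            exact absurd hi (h4 i' j' hij i c)
      · obtain ⟨hc, i, j, hij, rfl⟩ := hE _ _ h
        rcases Finset.mem_union.1 h' with h' | h'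
        · exact absurd h' (h3 i j hij c')
        · rcases Finset.mem_union.1 h' with h' | h'
          · obtain ⟨k, hk⟩ := hD _ h'
            exact absurd hk (h4 i j hij k c')
          · obtain ⟨hc', _⟩ := hE _ _ h'
            rw [hc, hc']
  · intro i y hy
    exact Finset.mem_union_right _ (Finset.mem_union_left _
      (Finset.mem_biUnion.2 ⟨i, Finset.mem_univ _, hy⟩))
  · intro i j hij
    refine Finset.mem_union_right _ (Finset.mem_union_right _ (Finset.mem_image.2 ⟨(i, j), ?_, rfl⟩))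
    exact Finset.mem_filter.2 ⟨Finset.mem_univ _, hij⟩

/-- the vertices of the edges decided by a condition -/
def verts (e : Sym2 K → Λ) (q : Fn Λ) : Set K := {u | ∃ v m c, ((e s(u, v), m), c) ∈ q.g}

theorem verts_finite {e : Sym2 K → Λ} (he : Function.Injective e) (q : Fn Λ) :
    (verts e q).Finite := by
  have h : verts e q ⊆ ⋃ y ∈ (q.g : Set ((Λ × ℕ) × Bool)), {u | ∃ v, e s(u, v) = y.1.1} := by
    rintro u ⟨v, m, c, h⟩
    exact mem_biUnion (Finset.mem_coe.2 h) ⟨v, rfl⟩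
  refine (Set.Finite.biUnion (Finset.finite_toSet _) fun y _ => ?_).subset h
  rcases Set.eq_empty_or_nonempty {u | ∃ v, e s(u, v) = y.1.1} with h0 | ⟨u₀, v₀, h0⟩
  · rw [h0]
    exact Set.finite_empty
  · refine (Set.toFinite {u₀, v₀}).subset ?_
    rintro u ⟨v, hv⟩
    have h1 : s(u, v) = s(u₀, v₀) := he (hv.trans h0.symm)
    rw [Sym2.eq_iff] at h1
    rcases h1 with ⟨rfl, _⟩ | ⟨rfl, _⟩
    · exact Or.inl rfl
    · exact Or.inr rfl

/-- thinning out an uncountable family of conditions -/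
theorem thin (hK : ℵ₀ < #K) {e : Sym2 K → Λ} (he : Function.Injective e) (p : K → Fn Λ) :
    ∃ (Γ : Set K) (ρ : Fn Λ), Γ.Infinite ∧ (∀ β ∈ Γ, p β ≤ ρ) ∧
      (∀ β ∈ Γ, ∀ γ ∈ Γ, β ≠ γ → ∀ a c c', (a, c) ∈ (p β).g → (a, c') ∈ (p γ).g →
        c = c' ∧ (a, c) ∈ ρ.g) ∧
      (∀ β ∈ Γ, ∀ γ ∈ Γ, β ≠ γ → ∀ δ ∈ Γ, ∀ c, ((e s(β, γ), 0), c) ∉ (p δ).g) := by
  classical
  let F : K → Finset ((Λ × ℕ) ⊕ K) := fun β => ((p β).g.image fun y => Sum.inl y.1) ∪
    ((verts_finite he (p β)).toFinset.image Sum.inr ∪ {Sum.inr β})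
  have hθ : (ℵ₁ : Cardinal.{0}).IsRegular := Cardinal.isRegular_aleph_one
  have hθ0 : (ℵ₀ : Cardinal.{0}) < ℵ₁ := Cardinal.aleph0_lt_aleph_one
  obtain ⟨J, Rt, -, hJ, hR1, hR2⟩ := Pool.Agent.TH777.Y.delta_system hθ hθ0 F Set.univ (by
    rw [Cardinal.mk_univ, ← Cardinal.succ_aleph0]
    exact Order.succ_le_of_lt hK)
  obtain ⟨b, hb⟩ := Pool.Agent.TH777.Y.fiber_card hθ hJ
    (by
      refine lt_trans ?_ hθ0
      exact Cardinal.lt_aleph0_of_finite _)
    (fun β => fun t : Rt => decide (∃ a, t.1 = Sum.inl a ∧ (a, true) ∈ (p β).g))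
  set Γ₁ : Set K := {β | β ∈ J ∧ (fun t : Rt => decide (∃ a, t.1 = Sum.inl a ∧
    (a, true) ∈ (p β).g)) = b} with hΓ₁
  let Γ : Set K := Γ₁ \ {β | Sum.inr β ∈ Rt}
  have hfin : {β : K | (Sum.inr β : (Λ × ℕ) ⊕ K) ∈ Rt}.Finite := by
    refine Set.Finite.preimage (s := (Rt : Set ((Λ × ℕ) ⊕ K))) (f := Sum.inr) ?_
      (Finset.finite_toSet _)
    exact Sum.inr_injective.injOn
  have hΓ₁inf : Γ₁.Infinite := by
    intro hf
    have := hf.lt_aleph0
    exact absurd (hb.trans this.le) (not_le.2 hθ0)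
  have hΓinf : Γ.Infinite := hΓ₁inf.sdiff hfin
  have hmemF : ∀ β a c, (a, c) ∈ (p β).g → Sum.inl a ∈ F β := fun β a c h =>
    Finset.mem_union_left _ (Finset.mem_image.2 ⟨_, h, rfl⟩)
  have hval : ∀ β ∈ Γ₁, ∀ γ ∈ Γ₁, ∀ a, Sum.inl a ∈ Rt → ∀ c c', (a, c) ∈ (p β).g →
      (a, c') ∈ (p γ).g → c = c' := by
    intro β hβ γ hγ a ha c c' hc hc'
    have h1 := congrFun (hβ.2.trans hγ.2.symm) ⟨Sum.inl a, ha⟩
    simp only [Sum.inl.injEq, exists_eq_left', decide_eq_decide] at h1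
    cases c <;> cases c'
    · rfl
    · have h2 := h1.2 hc'
      exact absurd ((p β).fn _ _ _ hc h2) (by simp)
    · have h2 := h1.1 hc
      exact absurd ((p γ).fn _ _ _ h2 hc') (by simp)
    · rfl
  obtain ⟨β₀, hβ₀⟩ := hΓinf.nonempty
  let ρ : Fn Λ := ⟨(p β₀).g.filter fun y => Sum.inl y.1 ∈ Rt, fun a c c' h h' =>
    (p β₀).fn _ _ _ (Finset.mem_filter.1 h).1 (Finset.mem_filter.1 h').1⟩
  refine ⟨Γ, ρ, hΓinf, ?_, ?_, ?_⟩
  · intro β hβ y hy
    obtain ⟨hy1, hy2⟩ := Finset.mem_filter.1 hy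
    rcases y with ⟨a, c⟩
    have h1 := hR1 β hβ.1.1 hy2
    rcases Finset.mem_union.1 h1 with h1 | h1
    · obtain ⟨⟨a', c'⟩, h2, h3⟩ := Finset.mem_image.1 h1
      simp only [Sum.inl.injEq] at h3
      subst h3
      have h4 := hval β hβ.1 β₀ hβ₀.1 a' hy2 c' c h2 hy1
      rw [← h4]
      exact h2
    · rcases Finset.mem_union.1 h1 with h1 | h1
      · obtain ⟨_, _, h3⟩ := Finset.mem_image.1 h1
        exact absurd h3 (by simp)
      · exact absurd (Finset.mem_singleton.1 h1) (by simp)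
  · intro β hβ γ hγ hne a c c' hc hc'
    have h1 : Sum.inl a ∈ Rt := hR2 β hβ.1.1 γ hγ.1.1 hne _ (hmemF β a c hc) (hmemF γ a c' hc')
    refine ⟨hval β hβ.1 γ hγ.1 a h1 c c' hc hc', Finset.mem_filter.2 ⟨?_, h1⟩⟩
    have h2 := hR1 β₀ hβ₀.1.1 h1
    rcases Finset.mem_union.1 h2 with h2 | h2
    · obtain ⟨⟨a', d⟩, h3, h4⟩ := Finset.mem_image.1 h2
      simp only [Sum.inl.injEq] at h4
      subst h4
      rw [hval β hβ.1 β₀ hβ₀.1 a' h1 c d hc h3]
      exact h3
    · rcases Finset.mem_union.1 h2 with h2 | h2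
      · obtain ⟨_, _, h3⟩ := Finset.mem_image.1 h2
        exact absurd h3 (by simp)
      · exact absurd (Finset.mem_singleton.1 h2) (by simp)
  · intro β hβ γ hγ hne δ hδ c hc
    have h1 : β ∈ verts e (p δ) := ⟨γ, 0, c, hc⟩
    have h2 : γ ∈ verts e (p δ) := ⟨β, 0, c, by rw [Sym2.eq_swap]; exact hc⟩
    have key : ∀ u ∈ Γ, u ∈ verts e (p δ) → u ≠ δ → False := by
      intro u hu hu' hne'
      apply hu.2
      refine hR2 u hu.1.1 δ hδ.1.1 hne' (Sum.inr u) ?_ ?_
      · exact Finset.mem_union_right _ (Finset.mem_union_right _ (Finset.mem_singleton_self _))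
      · exact Finset.mem_union_right _ (Finset.mem_union_left _
          (Finset.mem_image.2 ⟨u, (Set.Finite.mem_toFinset _).2 hu', rfl⟩))
    by_cases hβδ : β = δ
    · exact key γ hγ h2 fun h => hne (hβδ.trans h.symm)
    · exact key β hβ h1 hβδ

end Pool.Agent.Y577.UC.Forced
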