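import Pool.Agent.Y577.UC.Top

set_option autoImplicit false

/-!
# The principle implies that there are no universal function spaces
-/

namespace Pool.Agent.Y577.UC.Top

open Set Cardinal Topology

theorem code_le {K C : Type} (hK : ℵ₀ ≤ #K) (hC : #C ≤ #K) : #(ℕ × Finset C) ≤ #K := by
  rw [Cardinal.mk_prod]
  simp only [Cardinal.lift_id, Cardinal.mk_nat]
  have h1 : #(Finset C) ≤ #K := by
    rcases finite_or_infinite C with h | h
    · exact (Cardinal.lt_aleph0_of_finite _).le.trans hK
    · rw [Cardinal.mk_finset_of_infinite]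
      exact hC
  exact (mul_le_mul' hK h1).trans (Cardinal.mul_eq_self hK).le

/-- the relation coding a compact space with base `B` -/
def Rel {K W : Type} [TopologicalSpace W] {B : Set (Set W)} (code : ℕ × Finset B → K) (n : ℕ)
    (m : Fin n → K) : Prop :=
  ∃ (k : ℕ) (u : Fin n → Finset B), (∀ i, m i = code (k, u i)) ∧
    ∃ w : Fin k → W, ∀ i, ∃ t, w t ∈ closure (⋃ b ∈ u i, (b.1 : Set W))

theorem no_embedding {K : Type} (hK : ℵ₀ ≤ #K) (hP : Principle K) (W : Type) [TopologicalSpace W]
    [CompactSpace W] [T2Space W] (hW : WeightLe W #K) :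
    ∃ (X : Type) (_ : TopologicalSpace X), CompactSpace X ∧ T2Space X ∧ WeightLe X #K ∧
      ¬ ∃ T : Cp X → Cp W, IsEmbedding T := by
  classical
  obtain ⟨B, hB, hBK⟩ := hW
  obtain ⟨code⟩ : Nonempty (ℕ × Finset B ↪ K) := Cardinal.le_def _ _ |>.1 (code_le hK hBK)
  obtain ⟨G, hGs, hG⟩ := hP (Rel code)
  have hKinf : Infinite K := Cardinal.infinite_iff.2 hK
  have hNK : #(ℕ × K) = #K := by
    rw [Cardinal.mk_prod]
    simp only [Cardinal.lift_id, Cardinal.mk_nat]
    exact Cardinal.aleph0_mul_eq hK
  refine ⟨Xset G, inferInstance, inferInstance, inferInstance, ?_, ?_⟩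
  · rw [← hNK]
    exact cube_weight _ (by rw [hNK]; exact hK)
  rintro ⟨T, hT⟩
  have hWne : Nonempty W := by
    by_contra hW
    rw [not_nonempty_iff] at hW
    have h1 : (⟨fun _ => 1, continuous_const⟩ : Cp (Xset G)) = zf (Xset G) := by
      apply hT.injective
      apply Subtype.ext
      funext w
      exact hW.elim w
    have h2 := congrArg (fun f : Cp (Xset G) => f.1 (Classical.arbitrary _)) h1
    simp [zf] at h2
  obtain ⟨w₀⟩ := hWne
  -- category
  obtain ⟨k, x₀, hx₀⟩ := nonempty_interior_of_iUnion_of_closed (Xk_closed T) (iUnion_Xk hT)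
  obtain ⟨O, hOk, hO, hxO⟩ := mem_interior.1 hx₀
  obtain ⟨O', hO', rfl⟩ := isOpen_induced_iff.1 hO
  obtain ⟨s, u, hs1, hs2⟩ := isOpen_pi_iff.1 hO' x₀.1 hxO
  have hbox : ∀ x : Xset G, (∀ a ∈ s, x.1 a = x₀.1 a) → x ∈ Xk T k := by
    intro x hx
    refine hOk (hs2 fun a ha => ?_)
    rw [hx a (Finset.mem_coe.1 ha)]
    exact (hs1 a (Finset.mem_coe.1 ha)).2
  obtain ⟨j, hj⟩ : ∃ j : ℕ, ∀ a ∈ s, a.1 ≠ j := by
    obtain ⟨j, hj⟩ := Infinite.exists_notMem_finset (s.image Prod.fst)
    exact ⟨j, fun a ha h => hj (Finset.mem_image.2 ⟨a, ha, h⟩)⟩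
  -- the codes
  let dev : K → W → ℝ := fun β w => |(T (hfun G j β)).1 w - (T (zf (Xset G))).1 w|
  have hdev : ∀ β, Continuous (dev β) := fun β =>
    ((T (hfun G j β)).2.sub (T (zf (Xset G))).2).abs
  set ε : ℝ := 1 / ((k : ℝ) + 1) with hεdef
  have hε : 0 < ε := by positivity
  have hu : ∀ β : K, ∃ u : Finset B, {w | ε ≤ dev β w} ⊆ (⋃ b ∈ u, (b.1 : Set W)) ∧
      closure (⋃ b ∈ u, (b.1 : Set W)) ⊆ {w | ε / 2 < dev β w} := by
    intro β
    refine exists_between hB (isClosed_le continuous_const (hdev β))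
      (isOpen_lt continuous_const (hdev β)) ?_
    intro w hw
    have h1 : ε ≤ dev β w := hw
    show ε / 2 < dev β w
    linarith
  choose c hc1 hc2 using hu
  rcases hG (fun β => code (k, c β)) with ⟨n, l, hl, hadj, hnR⟩ | ⟨I, hI1, hI2⟩
  · -- a clique
    apply hnR
    let x : ℕ × K → Bool := fun a => if a.1 = j then decide (a.2 ∈ Set.range l) else x₀.1 a
    have hx : x ∈ Xset G := by
      intro j' u v huv hu hv
      by_cases hj' : j' = j
      · simp only [x, hj', if_true, decide_eq_true_eq] at hu hv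
        obtain ⟨i, rfl⟩ := hu
        obtain ⟨i', rfl⟩ := hv
        exact hadj i i' fun h => huv (by rw [h])
      · simp only [x, if_neg hj'] at hu hv
        exact x₀.2 j' u v huv hu hv
    have hxk : (⟨x, hx⟩ : Xset G) ∈ Xk T k := by
      refine hbox _ fun a ha => ?_
      simp only [x, if_neg (hj a ha)]
    obtain ⟨w, hw⟩ := hxk
    refine ⟨k, fun i => c (l i), fun i => rfl, w, fun i => ?_⟩
    by_contra hcon
    push Not at hcon
    have h1 : ∀ t, |(T (hfun G j (l i))).1 (w t) - (T (zf (Xset G))).1 (w t)| < 1 / ((k : ℝ) + 1) := by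
      intro t
      by_contra h
      exact hcon t (subset_closure (hc1 (l i) (not_lt.1 h)))
    have h2 := hw _ h1
    have h3 : (hfun G j (l i)).1 ⟨x, hx⟩ = 2 := by
      apply hfun_one
      simp [x]
    rw [h3] at h2
    norm_num at h2
  · -- a large set
    obtain ⟨w, hw⟩ : ∃ w : Fin k → W, ∀ β ∈ I, ∃ t, w t ∈ closure (⋃ b ∈ c β, (b.1 : Set W)) := by
      have h1 := (isCompact_univ (X := Fin k → W)).inter_iInter_nonempty
        (fun β : I => {w : Fin k → W | ∃ t, w t ∈ closure (⋃ b ∈ c β.1, (b.1 : Set W))})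
        (by
          intro β
          have : {w : Fin k → W | ∃ t, w t ∈ closure (⋃ b ∈ c β.1, (b.1 : Set W))} =
              ⋃ t, (fun w : Fin k → W => w t) ⁻¹' closure (⋃ b ∈ c β.1, (b.1 : Set W)) := by
            ext w
            simp
          rw [this]
          exact isClosed_iUnion_of_finite fun t => isClosed_closure.preimage (continuous_apply t))
        (by
          intro J
          have h2 := hI2 J.card (fun i => ((J.equivFin.symm i).1 : I).1) (by
            intro i i' h
            exact J.equivFin.symm.injective (Subtype.ext (Subtype.ext h)))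
            (fun i => ((J.equivFin.symm i).1 : I).2)
          obtain ⟨k', u', h3, w, h4⟩ := h2
          rcases J.eq_empty_or_nonempty with hJ | hJ
          · refine ⟨fun _ => w₀, mem_univ _, ?_⟩
            rw [hJ]
            simp
          · have hpos : 0 < J.card := hJ.card_pos
            have hk : k = k' := by
              have := code.injective (h3 ⟨0, hpos⟩)
              exact congrArg Prod.fst this
            subst hk
            refine ⟨w, mem_univ _, ?_⟩
            simp only [mem_iInter]
            intro β hβ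
            obtain ⟨t, ht⟩ := h4 (J.equivFin ⟨β, hβ⟩)
            refine ⟨t, ?_⟩
            have h5 := code.injective (h3 (J.equivFin ⟨β, hβ⟩))
            simp only [Equiv.symm_apply_apply] at h5
            have h6 : c β.1 = u' (J.equivFin ⟨β, hβ⟩) := congrArg Prod.snd h5
            rw [h6]
            exact ht)
      obtain ⟨w, -, hw⟩ := h1
      refine ⟨w, fun β hβ => ?_⟩
      exact mem_iInter.1 hw ⟨β, hβ⟩
    -- finite support
    have hopen : IsOpen {g : Cp W | ∀ t : Fin k, |g.1 (w t) - (T (zf (Xset G))).1 (w t)| < ε / 2} := by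
      have : {g : Cp W | ∀ t : Fin k, |g.1 (w t) - (T (zf (Xset G))).1 (w t)| < ε / 2} =
          ⋂ t : Fin k, {g : Cp W | |g.1 (w t) - (T (zf (Xset G))).1 (w t)| < ε / 2} := by
        ext g
        simp
      rw [this]
      refine isOpen_iInter_of_finite fun t => isOpen_lt ?_ continuous_const
      exact (((continuous_apply (w t)).comp continuous_subtype_val).sub continuous_const).abs
    obtain ⟨E, δ, hδ, hE⟩ := cp_open_iff (hopen.preimage hT.continuous) (zf (Xset G)) (by
      intro t
      simp only [sub_self, abs_zero]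
      positivity)
    have hcov : ∀ β ∈ I, ∃ y ∈ E, y.1 (j, β) = true := by
      intro β hβ
      by_contra hcon
      push Not at hcon
      have h1 : hfun G j β ∈ T ⁻¹' {g : Cp W | ∀ t : Fin k,
          |g.1 (w t) - (T (zf (Xset G))).1 (w t)| < ε / 2} := by
        refine hE _ fun y hy => ?_
        rw [hfun_zero (hcon y hy)]
        simp [zf, hδ]
      obtain ⟨t, ht⟩ := hw β hβ
      have h2 : ε / 2 < dev β (w t) := hc2 β ht
      exact absurd (h1 t) (not_lt.2 h2.le)
    obtain ⟨l, hl, hlI, hlG⟩ := hI1 (E.card + 1)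
    choose y hyE hy using fun i => hcov (l i) (hlI i)
    obtain ⟨i, i', hii, hyy⟩ : ∃ i i', i ≠ i' ∧ y i = y i' := by
      by_contra hcon
      push Not at hcon
      have hinj : Function.Injective fun i => (⟨y i, hyE i⟩ : E) := by
        intro i i' h
        by_contra hne
        exact hcon i i' hne (congrArg Subtype.val h)
      have := Fintype.card_le_of_injective _ hinj
      simp at this
    refine hlG i i' hii ?_
    have h1 := hy i
    have h2 := hy i'
    rw [← hyy] at h2
    exact (y i).2 j (l i) (l i') (fun h => hii (hl h)) h1 h2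

end Pool.Agent.Y577.UC.Top
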