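import Mathlib

set_option autoImplicit false

/-!
# Universal function spaces and a principle on graphs

If `Principle K` holds then for every compact space `W` with a base of size at most `|K|` there is
a compact space `X` with a base of size at most `|K|` such that `C_p(X)` does not embed in `C_p(W)`.
-/

namespace Pool.Agent.Y577.UC.Top

open Set Cardinal Topology

/-- The principle: for every set `R` of finite sequences in `K` there is a graph `G` on `K` such
that for every map `φ` from `K` to `K`, either some finite complete subgraph is mapped to a sequence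
not in `R`, or there is a set `I` containing independent sets of all finite sizes such that all
finite sequences of different elements of `I` are mapped to members of `R`. -/
def Principle (K : Type) : Prop :=
  ∀ R : (n : ℕ) → (Fin n → K) → Prop, ∃ G : K → K → Prop, (∀ u v, G u v → G v u) ∧
    ∀ φ : K → K,
      (∃ (n : ℕ) (l : Fin n → K), Function.Injective l ∧ (∀ i j, i ≠ j → G (l i) (l j)) ∧
        ¬ R n (fun i => φ (l i))) ∨
      (∃ I : Set K, (∀ n : ℕ, ∃ l : Fin n → K, Function.Injective l ∧ (∀ i, l i ∈ I) ∧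
          ∀ i j, i ≠ j → ¬ G (l i) (l j)) ∧
        ∀ (n : ℕ) (l : Fin n → K), Function.Injective l → (∀ i, l i ∈ I) →
          R n (fun i => φ (l i)))

/-- The set of continuous real functions with the topology of pointwise convergence. -/
abbrev Cp (X : Type) [TopologicalSpace X] : Type := {f : X → ℝ // Continuous f}

/-- `X` has a base of cardinality at most `κ`. -/
def WeightLe (X : Type) [TopologicalSpace X] (κ : Cardinal.{0}) : Prop :=
  ∃ B : Set (Set X), TopologicalSpace.IsTopologicalBasis B ∧ #B ≤ κ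

/-! ### Neighbourhoods -/

theorem cp_open_iff {Y : Type} [TopologicalSpace Y] {O : Set (Cp Y)} (hO : IsOpen O) (g : Cp Y)
    (hg : g ∈ O) : ∃ (F : Finset Y) (ε : ℝ), 0 < ε ∧ ∀ h : Cp Y,
      (∀ y ∈ F, |h.1 y - g.1 y| < ε) → h ∈ O := by
  classical
  obtain ⟨O', hO', rfl⟩ := isOpen_induced_iff.1 hO
  obtain ⟨F, u, h1, h2⟩ := isOpen_pi_iff.1 hO' g.1 hg
  have hex : ∀ y : Y, ∃ ε : ℝ, 0 < ε ∧ (y ∈ F → ∀ t : ℝ, |t - g.1 y| < ε → t ∈ u y) := by
    intro y
    by_cases hy : y ∈ F
    · obtain ⟨ε, hε, hb⟩ := Metric.isOpen_iff.1 (h1 y hy).1 _ (h1 y hy).2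
      exact ⟨ε, hε, fun _ t ht => hb (by rwa [Metric.mem_ball, Real.dist_eq])⟩
    · exact ⟨1, one_pos, fun h => absurd h hy⟩
  choose ε hε1 hε2 using hex
  rcases F.eq_empty_or_nonempty with hF | hF
  · refine ⟨∅, 1, one_pos, fun h _ => h2 ?_⟩
    rw [hF]
    simp
  · obtain ⟨y₀, -, hy₀⟩ := F.exists_min_image ε hF
    refine ⟨F, ε y₀, hε1 y₀, fun h hh => h2 ?_⟩
    intro y hy
    have hy' : y ∈ F := Finset.mem_coe.1 hy
    exact hε2 y hy' _ ((hh y hy').trans_le (hy₀ y hy'))

theorem cube_weight {ι : Type} (X : Set (ι → Bool)) (hι : ℵ₀ ≤ #ι) : WeightLe X #ι := by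
  classical
  have : Infinite ι := Cardinal.infinite_iff.2 hι
  let c : Finset (ι × Bool) → Set X := fun s => {x | ∀ a ∈ s, x.1 a.1 = a.2}
  refine ⟨Set.range c, ?_, ?_⟩
  · refine TopologicalSpace.isTopologicalBasis_of_isOpen_of_nhds ?_ ?_
    · rintro _ ⟨s, rfl⟩
      have h1 : c s = ⋂ a ∈ s, {x : X | x.1 a.1 = a.2} := by
        ext x
        simp [c]
      rw [h1]
      refine isOpen_biInter_finset fun a _ => ?_
      have h2 : Continuous fun x : X => x.1 a.1 := (continuous_apply a.1).comp continuous_subtype_val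
      exact (isOpen_discrete {a.2}).preimage h2
    · intro x O hx hO
      obtain ⟨O', hO', rfl⟩ := isOpen_induced_iff.1 hO
      obtain ⟨F, u, h1, h2⟩ := isOpen_pi_iff.1 hO' x.1 hx
      refine ⟨c (F.image fun i => (i, x.1 i)), ⟨_, rfl⟩, ?_, ?_⟩
      · intro a ha
        obtain ⟨i, _, rfl⟩ := Finset.mem_image.1 ha
        rfl
      · intro y hy
        refine h2 fun i hi => ?_
        have h3 := hy (i, x.1 i) (Finset.mem_image.2 ⟨i, Finset.mem_coe.1 hi, rfl⟩)
        simp only at h3
        rw [h3]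
        exact (h1 i (Finset.mem_coe.1 hi)).2
  · refine Cardinal.mk_range_le.trans ?_
    rw [Cardinal.mk_finset_of_infinite, Cardinal.mk_prod]
    simp only [Cardinal.lift_id]
    have h2 : #Bool ≤ #ι := by
      have : #Bool < ℵ₀ := Cardinal.lt_aleph0_of_finite _
      exact this.le.trans hι
    exact (mul_le_mul' le_rfl h2).trans (Cardinal.mul_eq_self hι).le

/-! ### The spaces of cliques -/

/-- sequences of cliques of `G` -/
def Xset {K : Type} (G : K → K → Prop) : Set (ℕ × K → Bool) :=
  {x | ∀ j u v, u ≠ v → x (j, u) = true → x (j, v) = true → G u v}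

theorem Xset_closed {K : Type} (G : K → K → Prop) : IsClosed (Xset G) := by
  have h : Xset G = ⋂ j, ⋂ u, ⋂ v, ⋂ (_ : u ≠ v), {x | x (j, u) = true → x (j, v) = true → G u v} := by
    ext x
    simp only [Xset, mem_ofPred_eq, mem_iInter]
  rw [h]
  refine isClosed_iInter fun j => isClosed_iInter fun u => isClosed_iInter fun v =>
    isClosed_iInter fun _ => ?_
  have h1 : {x : ℕ × K → Bool | x (j, u) = true → x (j, v) = true → G u v} =
      (fun x : ℕ × K → Bool => (x (j, u), x (j, v))) ⁻¹'
        {b | b.1 = true → b.2 = true → G u v} := rfl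
  rw [h1]
  exact (isClosed_discrete _).preimage ((continuous_apply _).prodMk (continuous_apply _))

instance {K : Type} (G : K → K → Prop) : CompactSpace (Xset G) :=
  isCompact_iff_compactSpace.mp (Xset_closed G).isCompact

instance {K : Type} (G : K → K → Prop) : Nonempty (Xset G) :=
  ⟨⟨fun _ => false, fun j u v _ h => absurd h (by simp)⟩⟩

/-- the function `2 x(j, β)` -/
def hfun {K : Type} (G : K → K → Prop) (j : ℕ) (β : K) : Cp (Xset G) :=
  ⟨fun x => if x.1 (j, β) = true then 2 else 0, by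
    have h : (fun x : Xset G => if x.1 (j, β) = true then (2 : ℝ) else 0) =
        (fun b : Bool => if b = true then (2 : ℝ) else 0) ∘ fun x : Xset G => x.1 (j, β) := rfl
    rw [h]
    exact continuous_of_discreteTopology.comp ((continuous_apply _).comp continuous_subtype_val)⟩

theorem hfun_one {K : Type} {G : K → K → Prop} {j : ℕ} {β : K} {x : Xset G}
    (h : x.1 (j, β) = true) : (hfun G j β).1 x = 2 := if_pos h

theorem hfun_zero {K : Type} {G : K → K → Prop} {j : ℕ} {β : K} {x : Xset G}
    (h : ¬ x.1 (j, β) = true) : (hfun G j β).1 x = 0 := if_neg h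

/-- the zero function -/
def zf (X : Type) [TopologicalSpace X] : Cp X := ⟨fun _ => 0, continuous_const⟩

section embed

variable {X W : Type} [TopologicalSpace X] [TopologicalSpace W]

/-- points controlled by `k` points of `W` with precision `1 / (k + 1)` -/
def Xk (T : Cp X → Cp W) (k : ℕ) : Set X :=
  {x | ∃ w : Fin k → W, ∀ f : Cp X,
    (∀ t, |(T f).1 (w t) - (T (zf X)).1 (w t)| < 1 / ((k : ℝ) + 1)) → |f.1 x| ≤ 1}

theorem Xk_closed [CompactSpace W] (T : Cp X → Cp W) (k : ℕ) : IsClosed (Xk T k) := by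
  let Z : Set (X × (Fin k → W)) := {z | ∀ f : Cp X,
    (∀ t, |(T f).1 (z.2 t) - (T (zf X)).1 (z.2 t)| < 1 / ((k : ℝ) + 1)) → |f.1 z.1| ≤ 1}
  have hZ : IsClosed Z := by
    have h : Z = ⋂ f : Cp X, ({z : X × (Fin k → W) | |f.1 z.1| ≤ 1} ∪
        ⋃ t : Fin k, {z | 1 / ((k : ℝ) + 1) ≤ |(T f).1 (z.2 t) - (T (zf X)).1 (z.2 t)|}) := by
      ext z
      simp only [Z, mem_ofPred_eq, mem_iInter, mem_union, mem_iUnion]
      refine forall_congr' fun f => ?_
      constructor
      · intro h
        by_cases h' : ∀ t, |(T f).1 (z.2 t) - (T (zf X)).1 (z.2 t)| < 1 / ((k : ℝ) + 1)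
        · exact Or.inl (h h')
        · push Not at h'
          exact Or.inr h'
      · rintro (h | ⟨t, ht⟩) h'
        · exact h
        · exact absurd (h' t) (not_lt.2 ht)
    rw [h]
    refine isClosed_iInter fun f => IsClosed.union ?_ ?_
    · exact isClosed_le (f.2.comp continuous_fst).abs continuous_const
    · refine isClosed_iUnion_of_finite fun t => ?_
      have h1 : Continuous fun z : X × (Fin k → W) => z.2 t := (continuous_apply t).comp continuous_snd
      exact isClosed_le continuous_const (((T f).2.comp h1).sub ((T (zf X)).2.comp h1)).abs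
  have h2 : Xk T k = Prod.fst '' Z := by
    ext x
    constructor
    · rintro ⟨w, hw⟩
      exact ⟨(x, w), hw, rfl⟩
    · rintro ⟨⟨x', w⟩, hw, rfl⟩
      exact ⟨w, hw⟩
  rw [h2]
  exact isClosedMap_fst_of_compactSpace _ hZ

theorem iUnion_Xk [Nonempty X] {T : Cp X → Cp W} (hT : IsEmbedding T) :
    ⋃ k, Xk T k = Set.univ := by
  classical
  rw [Set.eq_univ_iff_forall]
  intro x
  have hW : Nonempty W := by
    by_contra hW
    rw [not_nonempty_iff] at hW
    have h1 : (⟨fun _ => 1, continuous_const⟩ : Cp X) = zf X := by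
      apply hT.injective
      apply Subtype.ext
      funext w
      exact hW.elim w
    have h2 := congrArg (fun f : Cp X => f.1 x) h1
    simp [zf] at h2
  obtain ⟨w₀⟩ := hW
  have hopen : IsOpen {f : Cp X | |f.1 x| < 1} := by
    refine isOpen_lt ?_ continuous_const
    exact ((continuous_apply x).comp continuous_subtype_val).abs
  obtain ⟨O, hO, hO'⟩ := hT.isInducing.isOpen_iff.1 hopen
  have h0 : T (zf X) ∈ O := by
    have h1 : zf X ∈ T ⁻¹' O := by
      rw [hO']
      simp [zf]
    exact h1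
  obtain ⟨F, ε, hε, hF⟩ := cp_open_iff hO _ h0
  obtain ⟨m, hm⟩ := exists_nat_one_div_lt hε
  let k := max F.card m
  have hk : 1 / ((k : ℝ) + 1) ≤ ε := by
    refine le_trans ?_ hm.le
    apply one_div_le_one_div_of_le
    · positivity
    · have : (m : ℝ) ≤ k := by exact_mod_cast le_max_right _ _
      linarith
  let w : Fin k → W := fun t => if h : t.1 < F.card then (F.equivFin.symm ⟨t.1, h⟩).1 else w₀
  refine mem_iUnion.2 ⟨k, w, fun f hf => ?_⟩
  have h2 : f ∈ T ⁻¹' O := by
    refine hF _ fun y hy => ?_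
    let i := F.equivFin ⟨y, hy⟩
    have hi : i.1 < k := i.2.trans_le (le_max_left _ _)
    have h3 := hf ⟨i.1, hi⟩
    have h4 : w ⟨i.1, hi⟩ = y := by
      simp only [w]
      rw [dif_pos i.2]
      simp [i]
    rw [h4] at h3
    exact h3.trans_le hk
  rw [hO'] at h2
  exact le_of_lt h2

end embed

/-! ### Finite unions of basic sets between a closed set and an open set -/

theorem exists_between {W : Type} [TopologicalSpace W] [CompactSpace W] [T2Space W]
    {B : Set (Set W)} (hB : TopologicalSpace.IsTopologicalBasis B) {c o : Set W} (hc : IsClosed c)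
    (ho : IsOpen o) (h : c ⊆ o) : ∃ u : Finset B, c ⊆ (⋃ b ∈ u, (b.1 : Set W)) ∧
      closure (⋃ b ∈ u, (b.1 : Set W)) ⊆ o := by
  classical
  obtain ⟨V, hV, h1, h2⟩ := normal_exists_closure_subset hc ho h
  have hex : ∀ x : W, ∃ b : Set W, x ∈ c → (b ∈ B ∧ x ∈ b ∧ b ⊆ V) := by
    intro x
    by_cases hx : x ∈ c
    · obtain ⟨b, hb, hxb, hbV⟩ := hB.exists_subset_of_mem_open (h1 hx) hV
      exact ⟨b, fun _ => ⟨hb, hxb, hbV⟩⟩
    · exact ⟨∅, fun h => absurd h hx⟩
  choose b hb using hex
  obtain ⟨t, ht, hcov⟩ := hc.isCompact.elim_nhds_subcover b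
    (fun x hx => (hB.isOpen (hb x hx).1).mem_nhds (hb x hx).2.1)
  let u : Finset B := (Finset.univ : Finset t).image fun x => ⟨b x.1, (hb x.1 (ht x.1 x.2)).1⟩
  have hu : (⋃ b' ∈ u, (b'.1 : Set W)) = ⋃ x ∈ t, b x := by
    ext y
    simp only [mem_iUnion, u, Finset.mem_image, Finset.mem_univ, true_and, exists_prop]
    constructor
    · rintro ⟨_, ⟨x, rfl⟩, hy⟩
      exact ⟨x.1, x.2, hy⟩
    · rintro ⟨x, hx, hy⟩
      exact ⟨_, ⟨⟨x, hx⟩, rfl⟩, hy⟩
  refine ⟨u, ?_, ?_⟩
  · rw [hu]
    exact hcov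
  · rw [hu]
    refine (closure_mono ?_).trans h2
    exact iUnion₂_subset fun x hx => (hb x (ht x hx)).2.2

end Pool.Agent.Y577.UC.Top
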